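import Pool.Agent.Lib_helper53.Deg2.Formula

/-!
# Formulas with one comparable universal quantifier do not define the `m`-c.e. degrees

`DegC.Gam` is the least class of formulas `φ(x)` of the language `≤` which contains the
existential formulas, the universal formulas, the formulas `∀ y ≤ x, θ(x, y)` and
`∀ y ≥ x, θ(x, y)` with `θ` existential, the formulas `∃ y ≤ x, θ(x, y)` with `θ` universal, and
which is closed under conjunction and disjunction. There are a c.e. degree `a₀` and an
`(n+1)`-c.e. degree `a₁` that is not `n`-c.e. such that each formula of the class which is true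
of `a₀` in the structure of the `(n+1)`-c.e. degrees is true of `a₁` there.
-/

namespace Pool.Agent.Results.MP_734188_lc.ForallExists

open DegB DegC FirstOrder

theorem result (n : ℕ) :
    ∃ a₀ a₁ : DN (n + 1), (a₀ : TuringDegree) ∈ DN 1 ∧ (a₁ : TuringDegree) ∉ DN n ∧
      ∀ φ : Language.order.BoundedFormula Empty 1, Gam φ →
        φ.Realize default ![a₀] → φ.Realize default ![a₁] :=
  gam_main n

end Pool.Agent.Results.MP_734188_lc.ForallExists
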