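import Pool.Agent.Lib_helper53.Deg.Degrees

/-!
# A degree in `D_{m+1}` outside `D_m` whose lower cone consists of degrees without minimal covers

For every `m` there is an `(m+1)`-c.e. degree `a` which is not `m`-c.e. such that, for every
`n > m`, for every `b ≤ a` in `D_n` and every `c > b` in `D_n`, every finite partial order embeds
into the open interval `(b, c)` of `D_n`.
-/

namespace Pool.Agent.Results.MP_734188_lc.FullIntervals

open DegB

theorem result (m : ℕ) :
    ∃ a ∈ DN (m + 1), a ∉ DN m ∧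
      ∀ n : ℕ, m + 1 ≤ n → ∀ b ∈ DN n, b ≤ a → ∀ c ∈ DN n, b < c →
        ∀ (P : Type) [PartialOrder P] [Finite P],
          ∃ f : P ↪o TuringDegree, ∀ p : P, f p ∈ DN n ∧ b < f p ∧ f p < c := by
  refine ⟨degSet (toS (MSl m 0)), mem_DN.2 ⟨_, NCE_MSl m 0, rfl⟩, ?_, ?_⟩
  · intro h
    obtain ⟨W, hW, hWe⟩ := mem_DN.1 h
    exact not_mce m hW (degS_le.1 hWe.ge) (degS_le.1 hWe.le)
  · intro n hn b hb hba c hc hbc P _ _
    exact interval_posets m n hb hc (hba.trans (degS_le.2 (TR_MSl m 0))) hbc P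

end Pool.Agent.Results.MP_734188_lc.FullIntervals
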